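import Pool.Agent.H37.SP.Stm

/-!
Crew SP (`MP_0cd084_nt`), part GRE: greedy splitting into blocks of large weight.
-/

set_option autoImplicit false

namespace Pool.Agent.H18.SP

open Pool.Agent.H37.SP

lemma greedy_one (z : ℕ → ℝ) (L : ℝ) (hL : 0 ≤ L) (P : Finset ℕ) :
    (∀ p ∈ P, 0 ≤ z p ∧ z p ≤ 1) → L ≤ ∑ p ∈ P, z p →
    ∃ B ⊆ P, L ≤ ∑ p ∈ B, z p ∧ ∑ p ∈ B, z p ≤ L + 1 := by
  classical
  induction P using Finset.induction_on with
  | empty =>
    intro _ h
    refine ⟨∅, le_refl _, h, ?_⟩
    simp only [Finset.sum_empty]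
    linarith
  | insert a P ha ih =>
    intro hz h
    by_cases h1 : L ≤ ∑ p ∈ P, z p
    · obtain ⟨B, hB, h2, h3⟩ := ih (fun p hp => hz p (Finset.mem_insert_of_mem hp)) h1
      exact ⟨B, hB.trans (Finset.subset_insert a P), h2, h3⟩
    · refine ⟨insert a P, le_refl _, h, ?_⟩
      rw [Finset.sum_insert ha]
      have := (hz a (Finset.mem_insert_self a P)).2
      linarith

theorem t_GRE : S_GRE := by
  classical
  intro P z hz L hL R
  induction R generalizing P with
  | zero =>
    intro _
    exact ⟨fun i => i.elim0, fun i => i.elim0, fun i => i.elim0, fun i => i.elim0⟩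
  | succ R ih =>
    intro h
    have hR : (0 : ℝ) ≤ (R : ℝ) * (L + 1) := by positivity
    have h0 : L ≤ ∑ p ∈ P, z p := by
      push_cast at h
      nlinarith
    obtain ⟨B, hB, h1, h2⟩ := greedy_one z L hL P hz h0
    have h3 : ∑ p ∈ P \ B, z p + ∑ p ∈ B, z p = ∑ p ∈ P, z p := Finset.sum_sdiff hB
    have h4 : (R : ℝ) * (L + 1) ≤ ∑ p ∈ P \ B, z p := by
      push_cast at h
      linarith
    obtain ⟨Bk, hb1, hb2, hb3⟩ := ih (P \ B)
      (fun p hp => hz p (Finset.mem_sdiff.mp hp).1) h4
    have hdis : ∀ i, Disjoint B (Bk i) := fun i =>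
      Finset.disjoint_of_subset_right (hb1 i) Finset.disjoint_sdiff
    refine ⟨Fin.cons B Bk, ?_, ?_, ?_⟩
    · intro i
      refine Fin.cases ?_ (fun j => ?_) i
      · simpa using hB
      · simpa using (hb1 j).trans Finset.sdiff_subset
    · intro i j
      refine Fin.cases ?_ (fun i' => ?_) i
      · refine Fin.cases ?_ (fun j' => ?_) j
        · intro h; exact absurd rfl h
        · intro _; simpa using hdis j'
      · refine Fin.cases ?_ (fun j' => ?_) j
        · intro _; simpa using (hdis i').symm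
        · intro hij
          simpa using hb2 i' j' (fun e => hij (by rw [e]))
    · intro i
      refine Fin.cases ?_ (fun j => ?_) i
      · simpa using h1
      · simpa using hb3 j

end Pool.Agent.H18.SP
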