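import Pool.Agent.H37.SP.Stm

/-!
Crew SP (`MP_0cd084_nt`), part PRA: mean values of products of centred indicators.
-/

set_option autoImplicit false

namespace Pool.Agent.H18.SP

open Pool.Agent.H37.SP

lemma sum_crt_two (m n : ℕ) (hm : 0 < m) (hn : 0 < n) (h : m.Coprime n) (F G : ℕ → ℝ) :
    ∑ k ∈ Finset.range (m * n), F (k % m) * G (k % n) =
      (∑ i ∈ Finset.range m, F i) * (∑ j ∈ Finset.range n, G j) := by
  rw [Finset.sum_mul_sum, ← Finset.sum_product']
  refine Finset.sum_nbij (fun k => (k % m, k % n)) ?_ ?_ ?_ ?_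
  · intro k _
    simp only [Finset.mem_product, Finset.mem_range]
    exact ⟨Nat.mod_lt _ hm, Nat.mod_lt _ hn⟩
  · intro a ha b hb hab
    simp only [Finset.coe_range, Set.mem_Iio] at ha hb
    simp only [Prod.mk.injEq] at hab
    have h1 : a ≡ b [MOD m * n] := (Nat.modEq_and_modEq_iff_modEq_mul h).mp ⟨hab.1, hab.2⟩
    exact Nat.ModEq.eq_of_lt_of_lt h1 ha hb
  · rintro ⟨i, j⟩ hij
    simp only [Finset.coe_product, Finset.coe_range, Set.mem_prod, Set.mem_Iio] at hij
    refine ⟨(Nat.chineseRemainder h i j : ℕ), ?_, ?_⟩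
    · simp only [Finset.coe_range, Set.mem_Iio]
      exact Nat.chineseRemainder_lt_mul h i j hm.ne' hn.ne'
    · have h1 := (Nat.chineseRemainder h i j).prop.1
      have h2 := (Nat.chineseRemainder h i j).prop.2
      simp only [Prod.mk.injEq]
      constructor
      · rw [h1, Nat.mod_eq_of_lt hij.1]
      · rw [h2, Nat.mod_eq_of_lt hij.2]
  · intro k _
    rfl

lemma sum_ind (v : ℕ) (S : Finset ℕ) (hS : S ⊆ Finset.range v) :
    ∑ k ∈ Finset.range v, (if k ∈ S then (1 : ℝ) else 0) = (S.card : ℝ) := by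
  rw [Finset.sum_ite_mem, Finset.inter_eq_right.mpr hS]
  simp

lemma sum_centred (v : ℕ) (hv : 0 < v) (S : Finset ℕ) (hS : S ⊆ Finset.range v) :
    ∑ k ∈ Finset.range v, ((if k ∈ S then (1 : ℝ) else 0) - (S.card : ℝ) / v) = 0 := by
  rw [Finset.sum_sub_distrib, sum_ind v S hS]
  simp only [Finset.sum_const, Finset.card_range, nsmul_eq_mul]
  have : (v : ℝ) ≠ 0 := by exact_mod_cast hv.ne'
  field_simp
  ring

theorem t_PRA : S_PRA := by
  intro p p' hp hp' R hR hR' g hg
  constructor
  · intro hne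
    have hcop : p.Coprime p' := (Nat.coprime_primes hp hp').mpr hne
    have h1 := sum_crt_two p p' hp.pos hp'.pos hcop
      (fun k => (if k ∈ R p then (1 : ℝ) else 0) - ((R p).card : ℝ) / p)
      (fun k => (if k ∈ R p' then (1 : ℝ) else 0) - ((R p').card : ℝ) / p')
    rw [sum_centred p hp.pos (R p) hR, zero_mul] at h1
    rw [← h1]
    refine Finset.sum_congr rfl (fun k _ => ?_)
    rw [hg p k, hg p' k]
  · have h1 : ∀ k ∈ Finset.range p, g p k * g p k =
        (1 - 2 * (((R p).card : ℝ) / p)) * (if k ∈ R p then (1 : ℝ) else 0) +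
          (((R p).card : ℝ) / p) ^ 2 := by
      intro k hk
      rw [hg p k, Nat.mod_eq_of_lt (Finset.mem_range.mp hk)]
      split_ifs <;> ring
    rw [Finset.sum_congr rfl h1, Finset.sum_add_distrib, ← Finset.mul_sum, sum_ind p (R p) hR]
    simp only [Finset.sum_const, Finset.card_range, nsmul_eq_mul]
    have : (p : ℝ) ≠ 0 := by exact_mod_cast hp.pos.ne'
    field_simp
    ring

end Pool.Agent.H18.SP
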