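import Pool.Agent.H37.SP.Stm

/-!
Crew SP (`MP_0cd084_nt`), part SOL: a solution attached to a prime that is hit.
-/

set_option autoImplicit false

namespace Pool.Agent.H18.SP

open Pool.Agent.H37.SP

lemma sum_sub_one (m : Multiset ℕ) : (∀ a ∈ m, 1 ≤ a) →
    (m.map (fun a => a - 1)).sum + Multiset.card m = m.sum := by
  induction m using Multiset.induction_on with
  | empty => simp
  | cons a m ih =>
    intro h
    have h1 := h a (Multiset.mem_cons_self a m)
    have h2 := ih (fun x hx => h x (Multiset.mem_cons_of_mem hx))
    simp only [Multiset.map_cons, Multiset.sum_cons, Multiset.card_cons]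
    omega

lemma two_pow_card_le_prod (m : Multiset ℕ) : (∀ a ∈ m, 2 ≤ a) →
    2 ^ Multiset.card m ≤ m.prod := by
  induction m using Multiset.induction_on with
  | empty => simp
  | cons a m ih =>
    intro h
    have h1 := h a (Multiset.mem_cons_self a m)
    have h2 := ih (fun x hx => h x (Multiset.mem_cons_of_mem hx))
    simp only [Multiset.prod_cons, Multiset.card_cons, pow_succ]
    calc 2 ^ Multiset.card m * 2 ≤ m.prod * a := Nat.mul_le_mul h2 h1
      _ = a * m.prod := mul_comm _ _

theorem t_SOL : S_SOL := by
  intro k p m hm hp hdvd hk hdiv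
  obtain ⟨b, hb⟩ := hdvd
  set A := m.prod with hA
  set σ := (m.map (fun a => a - 1)).sum with hσ
  have hApos : 0 < A := by
    rcases Nat.eq_zero_or_pos A with h | h
    · rw [h] at hb; omega
    · exact h
  have hbpos : 0 < b := by
    rcases Nat.eq_zero_or_pos b with h | h
    · rw [h] at hb; omega
    · exact h
  have hbdiv : (p + 1) / A = b := by
    rw [hb]; exact Nat.mul_div_cancel_left b hApos
  rw [hbdiv] at hdiv
  set k' := k - 2 with hk'
  have hkk : k = k' + 2 := by omega
  have hk'' : p * (p + 1) ≤ k' := by
    have : p * (p + 1) = p ^ 2 + p := by ring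
    omega
  -- the number q
  have hq : p ∣ A * (k' + σ) + 1 := by
    have h1 : p ∣ A * (k' + σ + b) := Dvd.dvd.mul_left hdiv A
    have h2 : A * (k' + σ + b) = (A * (k' + σ) + 1) + p := by
      have : A * (k' + σ + b) = A * (k' + σ) + A * b := by ring
      rw [this, ← hb]; ring
    rw [h2] at h1
    exact (Nat.dvd_add_left (dvd_refl p)).mp h1
  obtain ⟨q, hq⟩ := hq
  have hAbq : A * (b * q) = A * (k' + σ) + (q + 1) := by
    have h1 : A * (b * q) = (A * b) * q := by ring
    rw [h1, ← hb]
    have h2 : (p + 1) * q = p * q + q := by ring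
    rw [h2, ← hq]; ring
  have hlt : k' + σ < b * q := by
    have : A * (k' + σ) < A * (b * q) := by omega
    exact lt_of_mul_lt_mul_left this (Nat.zero_le A)
  obtain ⟨c, hc⟩ : ∃ c, b * q = (k' + σ) + c := ⟨b * q - (k' + σ), by omega⟩
  have hAc : A * c = q + 1 := by
    rw [hc] at hAbq
    have : A * (k' + σ + c) = A * (k' + σ) + A * c := by ring
    omega
  have hprod : (p + 1) * c = c + b + (k' + σ) := by
    rw [hb]
    have h1 : A * b * c = b * (A * c) := by ring
    rw [h1, hAc]
    have h2 : b * (q + 1) = b * q + b := by ring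
    rw [h2, hc]; ring
  have hqbig : A * (p + 1) < q := by
    have h1 : p * (A * (p + 1)) < p * q := by
      rw [← hq]
      have h2 : p * (A * (p + 1)) = A * (p * (p + 1)) := by ring
      rw [h2]
      have h3 : A * (p * (p + 1)) ≤ A * (k' + σ) := Nat.mul_le_mul_left A (by omega)
      omega
    exact lt_of_mul_lt_mul_left h1 (Nat.zero_le p)
  have hcbig : p + 1 < c := by
    have : A * (p + 1) < A * c := by omega
    exact lt_of_mul_lt_mul_left this (Nat.zero_le A)
  have hAle : A ≤ p + 1 := by
    rw [hb]; exact Nat.le_mul_of_pos_right A hbpos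
  have hble : b ≤ p + 1 := by
    rw [hb]; exact Nat.le_mul_of_pos_left b hApos
  have hcard : Multiset.card m ≤ k' := by
    have h1 := two_pow_card_le_prod m hm
    have h2 : Multiset.card m < 2 ^ Multiset.card m := Nat.lt_two_pow_self
    have h3 : p + 1 ≤ p * (p + 1) := Nat.le_mul_of_pos_left (p + 1) (by omega)
    omega
  have hsum := sum_sub_one m (fun a ha => le_trans (by norm_num) (hm a ha))
  refine ⟨m + ({b, c} : Multiset ℕ) + Multiset.replicate (k' - Multiset.card m) 1, ?_, c, ?_, ?_, ?_⟩
  · refine ⟨?_, ?_, ?_⟩
    · simp only [Multiset.card_add, Multiset.card_replicate, Multiset.insert_eq_cons,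
        Multiset.card_cons, Multiset.card_singleton]
      omega
    · intro a ha
      simp only [Multiset.mem_add, Multiset.insert_eq_cons, Multiset.mem_cons,
        Multiset.mem_singleton, Multiset.mem_replicate] at ha
      rcases ha with (h | h | h) | h
      · have := hm a h; omega
      · omega
      · omega
      · omega
    · simp only [Multiset.prod_add, Multiset.prod_replicate, Multiset.insert_eq_cons,
        Multiset.prod_cons, Multiset.prod_singleton, one_pow, mul_one, Multiset.sum_add,
        Multiset.sum_replicate, Multiset.sum_cons, Multiset.sum_singleton, smul_eq_mul]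
      have h1 : m.prod * (b * c) = (p + 1) * c := by
        rw [hb]; ring
      rw [h1, hprod]
      omega
  · simp
  · intro a ha
    simp only [Multiset.mem_add, Multiset.insert_eq_cons, Multiset.mem_cons,
      Multiset.mem_singleton, Multiset.mem_replicate] at ha
    rcases ha with (h | h | h) | h
    · have h1 : a ∣ m.prod := Multiset.dvd_prod h
      have h2 : a ≤ A := Nat.le_of_dvd hApos h1
      omega
    · omega
    · omega
    · omega
  · simp only [Multiset.prod_add, Multiset.prod_replicate, Multiset.insert_eq_cons,
      Multiset.prod_cons, Multiset.prod_singleton, one_pow, mul_one]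
    rw [hb]; ring

end Pool.Agent.H18.SP
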